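import Pool.Agent.H32.Corr

open Set Filter Topology Metric

namespace Pool.Agent.Results.MP_65e1c6_gt.NotAdditive

open Pool.Agent.H32.Corr

/-- the metric `du² + 2 sin w du dv + dv²` is locally Euclidean on `U` -/
def LocEuclid (U : Set (ℝ × ℝ)) (w : ℝ × ℝ → ℝ) : Prop :=
  ∀ p ∈ U, ∃ V : Set (ℝ × ℝ), IsOpen V ∧ p ∈ V ∧ V ⊆ U ∧ ∃ f : ℝ × ℝ → ℂ, ContDiffOn ℝ 1 f V ∧
    ∀ x ∈ V, ‖fderiv ℝ f x (1, 0)‖ = 1 ∧ ‖fderiv ℝ f x (0, 1)‖ = 1 ∧
      inner ℝ (fderiv ℝ f x (1, 0)) (fderiv ℝ f x (0, 1)) = Real.sin (w x)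

/-- near every point of `U`, `w (u, v) = g u + h v` for some functions `g`, `h` -/
def LocAdditive (U : Set (ℝ × ℝ)) (w : ℝ × ℝ → ℝ) : Prop :=
  ∀ p ∈ U, ∃ g h : ℝ → ℝ, ∀ᶠ x in 𝓝 p, w x = g x.1 + h x.2

lemma mem_ball_iff {u v : ℝ} : (u, v) ∈ ball (0 : ℝ × ℝ) 1 ↔ u ∈ Ioo (-1 : ℝ) 1 ∧ v ∈ Ioo (-1 : ℝ) 1 := by
  simp [Prod.norm_def, abs_lt]

lemma global {w : ℝ × ℝ → ℝ} (h : LocAdditive (ball 0 1) w) {u u' v v' : ℝ}
    (hu : u ∈ Ioo (-1 : ℝ) 1) (hu' : u' ∈ Ioo (-1 : ℝ) 1) (hv : v ∈ Ioo (-1 : ℝ) 1)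
    (hv' : v' ∈ Ioo (-1 : ℝ) 1) : w (u, v') - w (u, v) = w (u', v') - w (u', v) := by
  have key : ∀ a ∈ Ioo (-1 : ℝ) 1, ∀ᶠ b in 𝓝 a, w (b, v') - w (b, v) = w (a, v') - w (a, v) := by
    intro a ha
    refine isPreconnected_Ioo.induction₂' (fun y y' => ∀ᶠ b in 𝓝 a,
      w (b, y') - w (b, y) = w (a, y') - w (a, y)) ?_ ?_ hv hv'
    · intro y hy
      obtain ⟨g, k, hgk⟩ := h (a, y) (mem_ball_iff.2 ⟨ha, hy⟩)
      rw [nhds_prod_eq] at hgk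
      obtain ⟨s, hs, t, ht, hst⟩ := eventually_prod_iff.1 hgk
      filter_upwards [nhdsWithin_le_nhds ht] with y' hy'
      constructor <;> filter_upwards [hs] with b hb <;>
        rw [hst hb hy', hst hb ht.self_of_nhds, hst hs.self_of_nhds hy',
          hst hs.self_of_nhds ht.self_of_nhds] <;> ring
    · intro x y z _ _ _ h1 h2
      filter_upwards [h1, h2] with b h1 h2
      linarith
  refine isPreconnected_Ioo.induction₂' (fun a b => w (a, v') - w (a, v) = w (b, v') - w (b, v))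
    ?_ ?_ hu hu'
  · intro a ha
    filter_upwards [nhdsWithin_le_nhds (key a ha)] with b hb
    exact ⟨hb.symm, hb⟩
  · intro x y z _ _ _ h1 h2
    exact h1.trans h2

/-- the small parameter -/
noncomputable def ε : ℝ := 1 / 2000
/-- the scale -/
noncomputable def c : ℝ := √(1 - 9 * ε ^ 4)

lemma c_sq : c ^ 2 = 1 - 9 * ε ^ 4 := Real.sq_sqrt (by norm_num [ε])
lemma c_bd : 99 / 100 ≤ c ∧ c ≤ 1 :=
  ⟨Real.le_sqrt_of_sq_le (by norm_num [ε]), Real.sqrt_le_iff.2 ⟨zero_le_one, by norm_num [ε]⟩⟩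

/-- the starting map -/
noncomputable def f₀ (x : P) : ℂ := x.1 * (c * (1 - (ε * x.2) ^ 2)) + Complex.I * c * x.2

lemma f₀_sm : Sm f₀ := fun x _ => by
  have h1 : ContDiffAt ℝ oo (fun x : P => (x.1 : ℂ)) x :=
    (Complex.ofRealCLM.contDiff.comp contDiff_fst).contDiffAt
  have h2 : ContDiffAt ℝ oo (fun x : P => (x.2 : ℂ)) x :=
    (Complex.ofRealCLM.contDiff.comp contDiff_snd).contDiffAt
  exact (h1.mul (contDiffAt_const.mul (contDiffAt_const.sub ((contDiffAt_const.mul h2).pow 2)))).add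
    (contDiffAt_const.mul h2)

lemma f₀_D (x e : P) : D e f₀ x = e.1 * (c * (1 - (ε * x.2) ^ 2)) +
    e.2 * (Complex.I * c - 2 * c * ε ^ 2 * x.1 * x.2) := by
  have h1 : HasFDerivAt (fun x : P => (x.1 : ℂ))
      (Complex.ofRealCLM.comp (ContinuousLinearMap.fst ℝ ℝ ℝ)) x :=
    (Complex.ofRealCLM.comp (ContinuousLinearMap.fst ℝ ℝ ℝ)).hasFDerivAt
  have h2 : HasFDerivAt (fun x : P => (x.2 : ℂ))
      (Complex.ofRealCLM.comp (ContinuousLinearMap.snd ℝ ℝ ℝ)) x :=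
    (Complex.ofRealCLM.comp (ContinuousLinearMap.snd ℝ ℝ ℝ)).hasFDerivAt
  have h3 := (h1.mul ((((h2.const_mul (ε : ℂ)).pow 2).const_sub 1).const_mul (c : ℂ))).add
    (h2.const_mul (Complex.I * c))
  have h4 : D e f₀ x = _ := congrArg (fun L : P →L[ℝ] ℂ => L e) h3.fderiv
  rw [h4]
  simp
  ring

/-- main term of the first partial derivative -/
noncomputable def MM (l : ℝ) (x : P) : ℂ :=
  ((c * (1 - (ε * x.2) ^ 2) * (1 - (ε * x.2) ^ 2 * Real.cos (2 * (l * x.1))) : ℝ) : ℂ) +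
    ((c * (1 - (ε * x.2) ^ 2) * (2 * (ε * x.2) * Real.cos (l * x.1)) : ℝ) : ℂ) * Complex.I

/-- main term of the second partial derivative -/
noncomputable def NN (x : P) : ℂ := ((-(2 * c * ε ^ 2 * x.1 * x.2) : ℝ) : ℂ) + (c : ℂ) * Complex.I

lemma mem_K {x : P} (hx : x ∈ K) : |x.1| ≤ 1 ∧ |x.2| ≤ 1 := by
  simpa [K, Prod.norm_def] using hx

lemma s_bd {x : P} (hx : x ∈ K) : (ε * x.2) ^ 2 ≤ ε ^ 2 := by
  rw [mul_pow]
  exact mul_le_of_le_one_right (sq_nonneg _) ((sq_le_one_iff_abs_le_one _).2 (mem_K hx).2)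

lemma MM_norm (l : ℝ) {x : P} (hx : x ∈ K) :
    1 - 12 * ε ^ 4 ≤ ‖MM l x‖ ^ 2 ∧ ‖MM l x‖ ^ 2 ≤ 1 - 9 * ε ^ 4 := by
  rw [MM, Complex.sq_norm, Complex.normSq_add_mul_I]
  have hs := s_bd hx
  set s := ε * x.2
  have hc := Real.cos_sq_le_one (2 * (l * x.1))
  have h1 : (c * (1 - s ^ 2) * (1 - s ^ 2 * Real.cos (2 * (l * x.1)))) ^ 2 +
      (c * (1 - s ^ 2) * (2 * s * Real.cos (l * x.1))) ^ 2 =
      c ^ 2 * (1 - 3 * (s ^ 2) ^ 2 + 2 * (s ^ 2) ^ 3 +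
        (1 - s ^ 2) ^ 2 * (s ^ 2) ^ 2 * Real.cos (2 * (l * x.1)) ^ 2) := by
    rw [Real.cos_two_mul]; ring
  rw [h1, c_sq]
  have h0 : 0 ≤ s ^ 2 := sq_nonneg s
  generalize s ^ 2 = y at *
  have he : ε ^ 2 ≤ 1 / 100 := by norm_num [ε]
  have h2 : y ^ 2 ≤ ε ^ 4 := by nlinarith
  have h3 : (1 - y) ^ 2 * y ^ 2 * Real.cos (2 * (l * x.1)) ^ 2 ≤ 1 * y ^ 2 * 1 := by
    gcongr
    nlinarith
  have h4 : 0 ≤ (1 - y) ^ 2 * y ^ 2 * Real.cos (2 * (l * x.1)) ^ 2 := by positivity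
  have h5 : 0 ≤ y ^ 3 := by positivity
  have h6 : y ^ 3 ≤ y ^ 2 := by nlinarith
  have h7 : 0 ≤ ε ^ 4 := by positivity
  have h8 : ε ^ 4 ≤ 1 / 100 := by norm_num [ε]
  generalize (1 - y) ^ 2 * y ^ 2 * Real.cos (2 * (l * x.1)) ^ 2 = z at *
  constructor <;> nlinarith

lemma NN_norm {x : P} (hx : x ∈ K) :
    1 - 9 * ε ^ 4 ≤ ‖NN x‖ ^ 2 ∧ ‖NN x‖ ^ 2 ≤ 1 - 5 * ε ^ 4 := by
  rw [NN, Complex.sq_norm, Complex.normSq_add_mul_I]
  have h1 : (-(2 * c * ε ^ 2 * x.1 * x.2)) ^ 2 = 4 * ε ^ 4 * (c ^ 2 * (x.1 ^ 2 * x.2 ^ 2)) := by ring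
  have h2 : c ^ 2 * (x.1 ^ 2 * x.2 ^ 2) ≤ 1 * (1 * 1) := by
    gcongr
    · nlinarith [c_bd.1, c_bd.2]
    · exact (sq_le_one_iff_abs_le_one _).2 (mem_K hx).1
    · exact (sq_le_one_iff_abs_le_one _).2 (mem_K hx).2
  have h3 : 0 ≤ c ^ 2 * (x.1 ^ 2 * x.2 ^ 2) := by positivity
  have h7 : 0 ≤ ε ^ 4 := by positivity
  rw [h1, c_sq] at *
  constructor <;> nlinarith

lemma first : ∃ (l : ℝ) (f : P → ℂ), 2 ≤ l ∧ R (3 * ε ^ 2) f ∧ ∀ x ∈ K,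
    ‖D (1, 0) f x - MM l x‖ ≤ ε ^ 2 ∧ ‖D (0, 1) f x - NN x‖ ≤ ε ^ 2 := by
  have h2 : Sm (fun x : P => ((ε * x.2 : ℝ) : ℂ)) := fun x _ =>
    (Complex.ofRealCLM.contDiff.comp (contDiff_const.mul contDiff_snd)).contDiffAt
  have hA : Sm fun x => 2 * Complex.I * (ε * x.2 : ℝ) * D (1, 0) f₀ x := fun x hx =>
    (contDiffAt_const.mul (h2 x hx)).mul (f₀_sm.D _ x hx)
  have hB : Sm fun x => -(((ε * x.2 : ℝ) : ℂ) ^ 2 / 2) * D (1, 0) f₀ x := fun x hx =>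
    (((h2 x hx).pow 2).div_const 2).neg.mul (f₀_sm.D _ x hx)
  have hη : 0 < ε ^ 4 / 3 := by norm_num [ε]
  obtain ⟨l, a1, a2, a3⟩ := ((cor_D (ContinuousLinearMap.fst ℝ ℝ ℝ) f₀_sm hA hB (1, 0) hη).and
    ((cor_D (ContinuousLinearMap.fst ℝ ℝ ℝ) f₀_sm hA hB (0, 1) hη).and
      (eventually_ge_atTop 2))).exists
  have hg := cor_sm (ContinuousLinearMap.fst ℝ ℝ ℝ) f₀_sm hA hB l
  generalize cor (ContinuousLinearMap.fst ℝ ℝ ℝ) f₀ _ _ l = g at a1 a2 hg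
  have b : ∀ x ∈ K, ‖D (1, 0) g x - MM l x‖ ≤ ε ^ 4 / 3 ∧
      ‖D (0, 1) g x - NN x‖ ≤ ε ^ 4 / 3 := by
    intro x hx
    constructor
    · convert a1 x hx using 3
      simp only [MM, f₀_D, ContinuousLinearMap.coe_fst', Complex.real_smul]
      push_cast
      ring
    · convert a2 x hx using 3
      simp only [NN, f₀_D, ContinuousLinearMap.coe_fst', Complex.real_smul]
      push_cast
      ring
  have h7 : 0 ≤ ε ^ 4 := by positivity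
  have h8 : ε ^ 4 / 3 ≤ ε ^ 2 := by norm_num [ε]
  have h9 : ε ^ 4 / 3 ≤ 1 := by norm_num [ε]
  refine ⟨l, _, a3, ⟨hg, fun x hx => ?_⟩,
    fun x hx => ⟨(b x hx).1.trans h8, (b x hx).2.trans h8⟩⟩
  obtain ⟨m1, m2⟩ := MM_norm l hx
  obtain ⟨n1, n2⟩ := NN_norm hx
  obtain ⟨p1, p2⟩ := sq_pert (by nlinarith [norm_nonneg (MM l x)]) (b x hx).1 h9
  obtain ⟨q1, q2⟩ := sq_pert (by nlinarith [norm_nonneg (NN x)]) (b x hx).2 h9
  have : (3 * ε ^ 2) ^ 2 = 9 * ε ^ 4 := by ring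
  rw [this]
  refine ⟨⟨?_, ?_⟩, ?_, ?_⟩ <;> linarith

lemma inner_MN (l : ℝ) (x : P) : inner ℝ (MM l x) (NN x) =
    c * (1 - (ε * x.2) ^ 2) * c * (2 * ε * x.2) *
      (Real.cos (l * x.1) - ε * x.1 * (1 - (ε * x.2) ^ 2 * Real.cos (2 * (l * x.1)))) := by
  rw [Complex.inner, MM, NN]
  simp only [Complex.mul_re, Complex.add_re, Complex.add_im, Complex.ofReal_re, Complex.ofReal_im,
    Complex.mul_im, Complex.I_re, Complex.I_im, Complex.conj_re, Complex.conj_im]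
  ring

lemma arcsin_bd {x : ℝ} (h : |x| ≤ 1) : |x| ≤ |Real.arcsin x| ∧ |Real.arcsin x| ≤ 2 * |x| := by
  have h1 := Real.sin_arcsin (abs_le.1 h).1 (abs_le.1 h).2
  constructor
  · conv_lhs => rw [← h1]
    exact Real.abs_sin_le_abs
  · have h2 := Real.mul_abs_le_abs_sin (x := Real.arcsin x)
      (abs_le.2 ⟨Real.neg_pi_div_two_le_arcsin x, Real.arcsin_le_pi_div_two x⟩)
    rw [h1, div_mul_eq_mul_div, div_le_iff₀ Real.pi_pos] at h2
    nlinarith [Real.pi_le_four, abs_nonneg x]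

theorem result : ∃ (U : Set (ℝ × ℝ)) (w : ℝ × ℝ → ℝ), IsOpen U ∧ ContinuousOn w U ∧
    (∀ x ∈ U, |Real.sin (w x)| < 1) ∧ LocEuclid U w ∧ ¬ LocAdditive U w := by
  obtain ⟨l, f, hl, hR, hf⟩ := first
  obtain ⟨F, hF, hF'⟩ := limit (by norm_num [ε]) (by norm_num [ε]) hR
  let s : P → ℝ := fun x => inner ℝ (fderiv ℝ F x (1, 0)) (fderiv ℝ F x (0, 1))
  have hs1 : ∀ x ∈ ball (0 : P) 1, |s x| ≤ 1 := fun x hx => by
    have := abs_real_inner_le_norm (fderiv ℝ F x (1, 0)) (fderiv ℝ F x (0, 1))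
    rw [(hF' x hx).1, (hF' x hx).2.1, one_mul] at this
    exact this
  have hsin : ∀ x ∈ ball (0 : P) 1, Real.sin (Real.arcsin (s x)) = s x := fun x hx =>
    Real.sin_arcsin (abs_le.1 (hs1 x hx)).1 (abs_le.1 (hs1 x hx)).2
  have hclose : ∀ x ∈ ball (0 : P) 1, |s x - inner ℝ (MM l x) (NN x)| ≤ 194 * ε ^ 2 := by
    intro x hx
    have hxK : x ∈ K := ball_subset_closedBall hx
    have h1 : ∀ e : P, ‖e‖ = 1 → ‖fderiv ℝ F x e - D e f x‖ ≤ 96 * ε ^ 2 := fun e he => by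
      have := (fderiv ℝ F x - fderiv ℝ f x).le_opNorm e
      rw [he, mul_one] at this
      exact this.trans ((hF' x hx).2.2.trans (by linarith))
    have h2 := norm_sub_le_norm_sub_add_norm_sub (fderiv ℝ F x (1, 0)) (D (1, 0) f x) (MM l x)
    have h3 := norm_sub_le_norm_sub_add_norm_sub (fderiv ℝ F x (0, 1)) (D (0, 1) f x) (NN x)
    have h4 := h1 (1, 0) (by simp [Prod.norm_def])
    have h5 := h1 (0, 1) (by simp [Prod.norm_def])
    have h6 : s x - inner ℝ (MM l x) (NN x) =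
        inner ℝ (fderiv ℝ F x (1, 0) - MM l x) (fderiv ℝ F x (0, 1)) +
          inner ℝ (MM l x) (fderiv ℝ F x (0, 1) - NN x) := by
      rw [inner_sub_left, inner_sub_right]; ring
    have h7 := abs_real_inner_le_norm (fderiv ℝ F x (1, 0) - MM l x) (fderiv ℝ F x (0, 1))
    have h8 := abs_real_inner_le_norm (MM l x) (fderiv ℝ F x (0, 1) - NN x)
    rw [(hF' x hx).2.1, mul_one] at h7
    have h9 : ‖MM l x‖ ≤ 1 := by
      nlinarith [norm_nonneg (MM l x), (MM_norm l hxK).2, (by positivity : 0 ≤ ε ^ 4)]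
    have h10 := mul_le_of_le_one_left (norm_nonneg (fderiv ℝ F x (0, 1) - NN x)) h9
    rw [h6]
    refine (abs_add_le _ _).trans ?_
    linarith [(hf x hxK).1, (hf x hxK).2]
  have hpre : ∀ x ∈ K, |c * (1 - (ε * x.2) ^ 2) * c * (2 * ε * x.2)| ≤ 2 * ε ∧
      |ε * x.1 * (1 - (ε * x.2) ^ 2 * Real.cos (2 * (l * x.1)))| ≤ 2 * ε := by
    intro x hx
    have h1 := s_bd hx
    have h2 : ε ^ 2 ≤ 1 := by norm_num [ε]
    have h3 : 0 < ε := by norm_num [ε]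
    have h4 : |1 - (ε * x.2) ^ 2| ≤ 1 := abs_le.2 ⟨by linarith, by nlinarith [sq_nonneg (ε * x.2)]⟩
    have h5 : |c| ≤ 1 := abs_le.2 ⟨by linarith [c_bd.1], c_bd.2⟩
    have h6 : |1 - (ε * x.2) ^ 2 * Real.cos (2 * (l * x.1))| ≤ 2 := by
      have := Real.neg_one_le_cos (2 * (l * x.1))
      have := Real.cos_le_one (2 * (l * x.1))
      exact abs_le.2 ⟨by nlinarith [sq_nonneg (ε * x.2)], by nlinarith [sq_nonneg (ε * x.2)]⟩
    constructor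
    · rw [abs_mul, abs_mul, abs_mul, abs_mul, abs_of_pos (by linarith : 0 < 2 * ε)]
      calc _ ≤ 1 * 1 * 1 * (2 * ε * 1) := by gcongr; exact (mem_K hx).2
        _ = _ := by ring
    · rw [abs_mul, abs_mul, abs_of_pos h3]
      calc _ ≤ ε * 1 * 2 := by gcongr; exact (mem_K hx).1
        _ = _ := by ring
  refine ⟨ball 0 1, fun x => Real.arcsin (s x), isOpen_ball, ?_, ?_, ?_, fun hadd => ?_⟩
  · have hc := hF.continuousOn_fderiv_of_isOpen isOpen_ball le_rfl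
    exact Real.continuous_arcsin.comp_continuousOn
      ((hc.clm_apply continuousOn_const).inner (hc.clm_apply continuousOn_const))
  · intro x hx
    rw [hsin x hx]
    obtain ⟨h1, h2⟩ := hpre x (ball_subset_closedBall hx)
    have h3 : |inner ℝ (MM l x) (NN x)| ≤ 2 * ε * (1 + 2 * ε) := by
      rw [inner_MN, abs_mul]
      gcongr
      · norm_num [ε]
      · exact (abs_sub _ _).trans (add_le_add (Real.abs_cos_le_one _) h2)
    have h4 := abs_sub_abs_le_abs_sub (s x) (inner ℝ (MM l x) (NN x))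
    have h5 := hclose x hx
    norm_num [ε] at h3 h4 h5
    linarith
  · intro p hp
    exact ⟨ball 0 1, isOpen_ball, hp, subset_rfl, F, hF, fun x hx =>
      ⟨(hF' x hx).1, (hF' x hx).2.1, (hsin x hx).symm⟩⟩
  · have hu : Real.pi / 2 / l ∈ Ioo (-1 : ℝ) 1 := by
      have := Real.pi_pos
      refine ⟨lt_trans (by norm_num) (by positivity : 0 < Real.pi / 2 / l), ?_⟩
      rw [div_lt_one (by linarith)]
      linarith [Real.pi_lt_four]
    have h0 : (0 : ℝ) ∈ Ioo (-1 : ℝ) 1 := by norm_num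
    have hh : (1 / 2 : ℝ) ∈ Ioo (-1 : ℝ) 1 := by norm_num
    have key := global hadd h0 hu h0 hh
    have e1 := hclose _ (mem_ball_iff.2 ⟨h0, h0⟩)
    have e2 := hclose _ (mem_ball_iff.2 ⟨hu, h0⟩)
    have e3 := hclose _ (mem_ball_iff.2 ⟨hu, hh⟩)
    have e4 := hclose _ (mem_ball_iff.2 ⟨h0, hh⟩)
    have a1 := (arcsin_bd (hs1 _ (mem_ball_iff.2 ⟨h0, h0⟩))).2
    have a2 := (arcsin_bd (hs1 _ (mem_ball_iff.2 ⟨hu, h0⟩))).2
    have a3 := (arcsin_bd (hs1 _ (mem_ball_iff.2 ⟨hu, hh⟩))).2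
    have a4 := (arcsin_bd (hs1 _ (mem_ball_iff.2 ⟨h0, hh⟩))).1
    have i3 : |inner ℝ (MM l (Real.pi / 2 / l, 1 / 2)) (NN (Real.pi / 2 / l, 1 / 2))| ≤
        2 * ε * (2 * ε) := by
      obtain ⟨h1, h2⟩ := hpre _ (ball_subset_closedBall (mem_ball_iff.2 ⟨hu, hh⟩))
      rw [inner_MN, abs_mul]
      have : l * (Real.pi / 2 / l) = Real.pi / 2 := mul_div_cancel₀ _ (by linarith)
      gcongr
      · norm_num [ε]
      · simp only [this, Real.cos_pi_div_two, zero_sub, abs_neg] at h2 ⊢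
        exact h2
    have i4 : 9 / 10 * ε ≤ inner ℝ (MM l (0, 1 / 2)) (NN (0, 1 / 2)) := by
      rw [inner_MN]
      norm_num [ε]
      nlinarith [c_bd.1, c_bd.2]
    rw [inner_MN] at e1 e2
    simp only [mul_zero, zero_mul, sub_zero] at e1 e2
    have b3 := abs_sub_abs_le_abs_sub (s (Real.pi / 2 / l, 1 / 2))
      (inner ℝ (MM l (Real.pi / 2 / l, 1 / 2)) (NN (Real.pi / 2 / l, 1 / 2)))
    have b4 := (abs_le.1 e4).1
    have b5 := le_abs_self (s (0, 1 / 2))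
    have b6 : |Real.arcsin (s (0, 1 / 2))| ≤ |Real.arcsin (s (0, 0))| +
        |Real.arcsin (s (Real.pi / 2 / l, 1 / 2))| + |Real.arcsin (s (Real.pi / 2 / l, 0))| := by
      have : Real.arcsin (s (0, 1 / 2)) = Real.arcsin (s (0, 0)) +
          Real.arcsin (s (Real.pi / 2 / l, 1 / 2)) - Real.arcsin (s (Real.pi / 2 / l, 0)) := by
        linarith
      rw [this]
      exact (abs_sub _ _).trans (add_le_add_left (abs_add_le _ _) _)
    have hε : ε = 1 / 2000 := rfl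
    rw [hε] at e1 e2 e3 b4 i3 i4
    norm_num at e1 e2 e3 b4 i3 i4 a1 a2 a3 a4 b3 b5 b6
    linarith

end Pool.Agent.Results.MP_65e1c6_gt.NotAdditive
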